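import Mathlib
import Pool.Prelude.Def_F_c31e40fa
import Pool.Agent.Y736.HD9

/-!
# The boundary of the Mandelbrot set at parameters with a positive Lyapunov exponent

Let `ψ` be the exterior map of the Mandelbrot set `M` (`M` is locally connected if and only if `ψ`
extends continuously to the unit circle). At every parameter `c₀` whose critical value has a positive
Lyapunov exponent `χ`, the maximum of Green's function of `M` over the disc of radius `r` and the
harmonic measure of this disc are both `r ^ (log 2 / χ + o(1))`, and if `M` is locally connected then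
the Carathéodory loop moves, near every angle over `c₀`, by at least `δ ^ (χ / log 2 + o(1))` in the
time `δ`.
-/

set_option autoImplicit false

open Filter Topology Set Metric MeasureTheory Complex N62a1eb23

namespace Pool.Agent.Results.MP_c6f924_an.LyapunovParameters

open Pool.Agent.H713R2

/-- The polynomial `z ^ 2 + c`. -/
def f (c : ℂ) : ℂ → ℂ := fun z => z ^ 2 + c

/-- The critical value `c` of `z ^ 2 + c` has the Lyapunov exponent `χ > 0`. -/
def Lyapunov (χ : ℝ) (c : ℂ) : Prop :=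
  0 < χ ∧ c ∈ mandelbrotSet ∧
    Tendsto (fun n : ℕ => Real.log ‖deriv ((f c)^[n]) c‖ / n) atTop (𝓝 χ)

/-- The angles `t ∈ (0, 2π]` of the external rays landing at distance less than `r` from `c₀`. Up to
the factor `2π` its length is the harmonic measure (from infinity) of the disc of radius `r`. -/
def angles (ψ : ℂ → ℂ) (c₀ : ℂ) (r : ℝ) : Set ℝ :=
  {t | t ∈ Ioc 0 (2 * Real.pi) ∧ ∃ ζ ∈ ball c₀ r,
    Tendsto (fun ρ : ℝ => ψ (ρ * exp (t * I))) (𝓝[>] 1) (𝓝 ζ)}

/-- The harmonic measure, up to the factor `2π`. -/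
noncomputable def harm (ψ : ℂ → ℂ) (c₀ : ℂ) (r : ℝ) : ℝ := (volume (angles ψ c₀ r)).toReal

/-- The maximum of Green's function of the Mandelbrot set over a disc: Green's function is
`log ‖w‖` at the point `ψ w`. -/
noncomputable def green (ψ : ℂ → ℂ) (c₀ : ℂ) (r : ℝ) : ℝ :=
  sSup {x | ∃ w : ℂ, 1 < ‖w‖ ∧ ‖ψ w - c₀‖ ≤ r ∧ Real.log ‖w‖ = x}

/-- At every parameter with Lyapunov exponent `χ > 0`, harmonic measure and Green's function have the
exponent `log 2 / χ`, and a continuous extension of the exterior map (local connectivity of the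
Mandelbrot set) moves by at least `δ ^ (χ / log 2 + ε)` over every arc of radius `δ` about an angle of
`c₀`. -/
theorem result :
    (∃ ψ : ℂ → ℂ, IsExteriorMap mandelbrotSet ψ) ∧
    ∀ ψ : ℂ → ℂ, IsExteriorMap mandelbrotSet ψ →
      ∀ (χ : ℝ) (c₀ : ℂ), Lyapunov χ c₀ →
        Tendsto (fun r : ℝ => Real.log (harm ψ c₀ r) / Real.log r) (𝓝[>] 0)
          (𝓝 (Real.log 2 / χ)) ∧
        Tendsto (fun r : ℝ => Real.log (green ψ c₀ r) / Real.log r) (𝓝[>] 0)
          (𝓝 (Real.log 2 / χ)) ∧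
        ∀ F : ℂ → ℂ, ContinuousOn F {w : ℂ | 1 ≤ ‖w‖} → (∀ w : ℂ, 1 < ‖w‖ → F w = ψ w) →
          ∀ ζ : ℂ, ‖ζ‖ = 1 → F ζ = c₀ → ∀ ε : ℝ, 0 < ε → ∀ᶠ δ : ℝ in 𝓝[>] 0,
            ∃ ξ : ℂ, ‖ξ‖ = 1 ∧ ‖ξ - ζ‖ ≤ δ ∧ δ ^ (χ / Real.log 2 + ε) ≤ ‖F ξ - F ζ‖ := by
  obtain ⟨β, hβ⟩ := exists_beta (d := 2) le_rfl
  refine ⟨⟨_, exteriorMap_of_beta hβ⟩, ?_⟩
  intro ψ hψ χ c₀ h
  have hψ' : IsExteriorMap (multibrotSet 2) ψ := hψ
  have h' : Pool.Agent.Y298.CA.Lyap 2 χ c₀ := h
  refine ⟨Pool.Agent.Y736.HD.vol_exp h' hψ', Pool.Agent.Y736.HD.sup_exp h' hψ', ?_⟩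
  intro F hF hE ζ hζ hFζ ε hε
  exact Pool.Agent.Y736.HD.loop h' hψ' hF hE hζ hFζ hε

end Pool.Agent.Results.MP_c6f924_an.LyapunovParameters
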