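import Mathlib
import Pool.Prelude.Def_F_c31e40fa
import Pool.Agent.Y736.HL6
import Pool.Agent.W677.MB11

/-!
# The exterior map of the Mandelbrot set near parabolic parameters

Let `ψ` be the exterior map of the Mandelbrot set `M` (`M` is locally connected if and only if `ψ`
extends continuously to the unit circle); Green's function of `M` is `log |w|` at `ψ(w)`.

(1), (2) If `|(f^k)'| ≤ C L^k`, `L > 1`, at all points of the orbit of the critical point `0` of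
`f = z² + c₀`, then `|w| - 1 ≤ K |ψ(w) - c₀|^(log 2 / log L)`; this exponent is attained if the
derivatives of `f_c^n(0)` with respect to `c` grow at least like `L^n` at `c₀`. If these derivatives of
`f^k` are bounded then `|w| - 1 ≤ 12 exp(-A / √|ψ(w) - c₀|)`.

(3) Parabolic parameters are of the second kind. So every continuous extension of `ψ` to the unit circle
has a modulus of continuity of at least `c / (log (1/δ))²` at every angle of every parabolic parameter.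

(4) At the root `-3/4` of the period two component: the points of the level curve `{|w| = 1 + s}` are
mapped to distance at least `a / (1 + log (1/s))` from `-3/4`; this is sharp: every disc of radius `ρ`
about `-3/4` contains a point `ψ(w)` with `log (1/(|w| - 1)) ≤ C / ρ`.
-/

set_option autoImplicit false

open Filter Topology Set Metric Complex N62a1eb23

namespace Pool.Agent.Results.MP_c6f924_an.ParabolicParameters

open Pool.Agent.H713R2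

/-- The polynomial `z ^ 2 + c`. -/
def f (c : ℂ) : ℂ → ℂ := fun z => z ^ 2 + c

/-- `c` is a parabolic parameter: for some `N ≥ 1` the orbit of the critical point under the `N`-th
iterate of `z ^ 2 + c` converges to a fixed point of this iterate with derivative `1`. -/
def Parabolic (c : ℂ) : Prop :=
  ∃ (N : ℕ) (z₀ : ℂ), 1 ≤ N ∧ (f c)^[N] z₀ = z₀ ∧ deriv ((f c)^[N]) z₀ = 1 ∧
    Tendsto (fun k : ℕ => (f c)^[N * k] 0) atTop (𝓝 z₀)

/-- the orbit stays bounded -/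
theorem mem_of_parabolic {c : ℂ} (h : Parabolic c) : c ∈ mandelbrotSet := by
  obtain ⟨N, z₀, hN, -, -, hlim⟩ := h
  intro hT
  have h1 : Tendsto (fun k : ℕ => N * k) atTop atTop :=
    tendsto_id.const_mul_atTop' (by omega)
  have h2 : Tendsto (fun k : ℕ => (f c)^[N * k] 0) atTop (Bornology.cobounded ℂ) := hT.comp h1
  rw [← tendsto_norm_atTop_iff_cobounded] at h2
  exact not_tendsto_nhds_of_tendsto_atTop h2 _ hlim.norm

theorem val_ne {ψ : ℂ → ℂ} (hψ : IsExteriorMap mandelbrotSet ψ) {w c : ℂ} (hw : 1 < ‖w‖)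
    (hc : c ∈ mandelbrotSet) : 0 < ‖ψ w - c‖ := by
  rw [norm_pos_iff, sub_ne_zero]
  rintro rfl
  have : ψ w ∈ mandelbrotSetᶜ := by
    rw [← hψ.image]
    exact ⟨w, hw, rfl⟩
  exact this hc

/-- Escape rates and moduli of continuity at parameters whose critical orbit has slowly growing
derivatives, at the parabolic parameters, and at `-3/4`. -/
theorem result :
    (∃ ψ : ℂ → ℂ, IsExteriorMap mandelbrotSet ψ) ∧
    -- (1) exponential growth of the derivatives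
    (∀ c₀ ∈ mandelbrotSet, ∀ L : ℝ, 1 < L →
      (∀ C : ℝ, 0 < C → (∀ m k : ℕ, ‖deriv ((f c₀)^[k]) ((f c₀)^[m] 0)‖ ≤ C * L ^ k) →
        ∃ K : ℝ, 0 < K ∧ ∀ ψ : ℂ → ℂ, IsExteriorMap mandelbrotSet ψ → ∀ w : ℂ, 1 < ‖w‖ → ‖w‖ ≤ 2 →
          ‖w‖ - 1 ≤ K * ‖ψ w - c₀‖ ^ (Real.log 2 / Real.log L)) ∧
      (∀ a : ℝ, 0 < a →
        (∀ᶠ n : ℕ in atTop, a * L ^ n ≤ ‖deriv (fun c : ℂ => (f c)^[n] 0) c₀‖) →
        ∃ k : ℝ, 0 < k ∧ ∀ ψ : ℂ → ℂ, IsExteriorMap mandelbrotSet ψ → ∀ ρ : ℝ, 0 < ρ → ρ ≤ 1 →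
          ∃ w : ℂ, 1 < ‖w‖ ∧ ‖ψ w - c₀‖ ≤ ρ ∧ k * ρ ^ (Real.log 2 / Real.log L) ≤ ‖w‖ - 1)) ∧
    -- (2) bounded derivatives
    (∀ c₀ ∈ mandelbrotSet, ∀ C : ℝ,
      (∀ m k : ℕ, ‖deriv ((f c₀)^[k]) ((f c₀)^[m] 0)‖ ≤ C) →
      ∃ A : ℝ, 0 < A ∧ ∀ ψ : ℂ → ℂ, IsExteriorMap mandelbrotSet ψ → ∀ w : ℂ, 1 < ‖w‖ → ‖w‖ ≤ 2 →
        ‖w‖ - 1 ≤ 12 * Real.exp (-(A / √‖ψ w - c₀‖))) ∧
    -- (3) parabolic parameters
    (∀ c₀ : ℂ, Parabolic c₀ →
      (∃ C : ℝ, ∀ m k : ℕ, ‖deriv ((f c₀)^[k]) ((f c₀)^[m] 0)‖ ≤ C) ∧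
      ∃ A : ℝ, 0 < A ∧ ∀ ψ : ℂ → ℂ, IsExteriorMap mandelbrotSet ψ →
        (∀ w : ℂ, 1 < ‖w‖ → ‖w‖ ≤ 2 → ‖w‖ - 1 ≤ 12 * Real.exp (-(A / √‖ψ w - c₀‖))) ∧
        ∀ F : ℂ → ℂ, ContinuousOn F {w : ℂ | 1 ≤ ‖w‖} → (∀ w : ℂ, 1 < ‖w‖ → F w = ψ w) →
          ∀ ζ : ℂ, ‖ζ‖ = 1 → F ζ = c₀ → ∀ r : ℝ, 1 < r → r ≤ 2 →
            (A / Real.log (12 / (r - 1))) ^ 2 ≤ ‖F (r * ζ) - F ζ‖) ∧
    -- (4) the root of the period two component
    (∃ a C : ℝ, 0 < a ∧ 0 < C ∧ ∀ ψ : ℂ → ℂ, IsExteriorMap mandelbrotSet ψ →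
      (∀ w : ℂ, 1 < ‖w‖ → ‖w‖ ≤ 2 → a ≤ ‖ψ w + 3 / 4‖ * (1 + Real.log (1 / (‖w‖ - 1)))) ∧
      (∀ ρ : ℝ, 0 < ρ → ρ ≤ 1 → ∃ w : ℂ, 1 < ‖w‖ ∧ ‖ψ w + 3 / 4‖ ≤ ρ ∧
        Real.log (1 / (‖w‖ - 1)) ≤ C / ρ) ∧
      ∀ F : ℂ → ℂ, ContinuousOn F {w : ℂ | 1 ≤ ‖w‖} → (∀ w : ℂ, 1 < ‖w‖ → F w = ψ w) →
        ∃ ζ : ℂ, ‖ζ‖ = 1 ∧ F ζ = -3 / 4 ∧ ∀ r : ℝ, 1 < r → r ≤ 2 →
          a ≤ ‖F (r * ζ) - F ζ‖ * (1 + Real.log (1 / (r - 1)))) := by
  have hLL : ∀ (c : ℂ) (m k : ℕ), ‖deriv ((f c)^[k]) ((f c)^[m] 0)‖ =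
      Pool.Agent.Y736.HL.LL c m (m + k) := fun c m k =>
    Pool.Agent.Y736.HL.norm_deriv_iter c m k
  refine ⟨?_, ?_, ?_, ?_, ?_⟩
  · obtain ⟨β, hβ⟩ := exists_beta (d := 2) le_rfl
    exact ⟨_, exteriorMap_of_beta hβ⟩
  · intro c₀ hc₀ L hL
    refine ⟨fun C hC h => ?_, fun a ha h => ?_⟩
    · apply Pool.Agent.Y736.HL.upper_pow hc₀ hL hC
      intro m n hmn
      have h1 := h m (n - m)
      rw [hLL, Nat.add_sub_cancel' hmn] at h1
      exact h1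
    · exact Pool.Agent.Y736.HL.lower_pow ha hL h
  · intro c₀ hc₀ C h
    apply Pool.Agent.Y736.HL.upper_exp hc₀ (C := C)
    intro m n hmn
    have h1 := h m (n - m)
    rw [hLL, Nat.add_sub_cancel' hmn] at h1
    exact h1
  · intro c₀ h₀
    have hc₀ := mem_of_parabolic h₀
    obtain ⟨N, z₀, hN, hfix, hder, hlim⟩ := h₀
    obtain ⟨C, hC⟩ := Pool.Agent.Y736.HL.parabolic_LL hc₀ hN hfix hder hlim
    refine ⟨⟨C, fun m k => ?_⟩, ?_⟩
    · rw [hLL]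
      exact hC m (m + k) (Nat.le_add_right _ _)
    · obtain ⟨A, hA, H⟩ := Pool.Agent.Y736.HL.upper_exp hc₀ hC
      refine ⟨A, hA, fun ψ hψ => ⟨H ψ hψ, ?_⟩⟩
      intro F hF hE ζ hζ hFζ r hr1 hr2
      have hn : ‖(r : ℂ) * ζ‖ = r := by
        rw [norm_mul, hζ, mul_one, Complex.norm_real, Real.norm_of_nonneg (by linarith)]
      have h1 := H ψ hψ (r * ζ) (by rw [hn]; exact hr1) (by rw [hn]; exact hr2)
      have h2 : F (r * ζ) = ψ (r * ζ) := hE _ (by rw [hn]; exact hr1)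
      have h3 : 0 < ‖ψ (r * ζ) - c₀‖ := val_ne hψ (by rw [hn]; exact hr1) hc₀
      rw [hn] at h1
      rw [h2, hFζ]
      set x := ‖ψ (r * ζ) - c₀‖ with hx
      have h4 : 0 < √x := Real.sqrt_pos.2 h3
      have h5 : 0 < r - 1 := by linarith
      have h6 : 12 ≤ 12 / (r - 1) := by
        rw [le_div_iff₀ h5]
        nlinarith
      have h7 : 0 < Real.log (12 / (r - 1)) := Real.log_pos (by linarith)
      have h8 : A / √x ≤ Real.log (12 / (r - 1)) := by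
        rw [Real.le_log_iff_exp_le (by positivity), le_div_iff₀ h5]
        have h9 : Real.exp (A / √x) * (r - 1) ≤
            Real.exp (A / √x) * (12 * Real.exp (-(A / √x))) :=
          mul_le_mul_of_nonneg_left h1 (Real.exp_pos _).le
        refine h9.trans (le_of_eq ?_)
        rw [mul_left_comm, ← Real.exp_add, add_neg_cancel, Real.exp_zero, mul_one]
      have h9 : A / Real.log (12 / (r - 1)) ≤ √x := by
        rw [div_le_iff₀ h4] at h8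
        rw [div_le_iff₀ h7]
        linarith
      calc (A / Real.log (12 / (r - 1))) ^ 2 ≤ √x ^ 2 :=
            pow_le_pow_left₀ (by positivity) h9 2
        _ = x := Real.sq_sqrt h3.le
  · obtain ⟨a, ha, Ha⟩ := Pool.Agent.W677.MB.dist34
    obtain ⟨C, hC, HC⟩ := Pool.Agent.W677.MB.near34'
    obtain ⟨c, hc, Hc⟩ := Pool.Agent.W677.MB.ext34
    refine ⟨min a c, C, by positivity, hC, fun ψ hψ => ⟨fun w hw hw2 => ?_, HC ψ hψ, ?_⟩⟩
    · exact (min_le_left _ _).trans (Ha ψ hψ w hw hw2)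
    · intro F hF hE
      obtain ⟨ζ, h1, h2, h3⟩ := Hc ψ F hψ hF (fun w hw => hE w hw)
      exact ⟨ζ, h1, h2, fun r hr1 hr2 => (min_le_right _ _).trans (h3 r hr1 hr2)⟩

end Pool.Agent.Results.MP_c6f924_an.ParabolicParameters
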