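import Mathlib
import Pool.Prelude.Def_F_c31e40fa
import Pool.Agent.H107.MLC.Ray

set_option autoImplicit false

open Filter Topology N62a1eb23

namespace Pool.Agent.Results.MP_c6f924_an.SlowRaysMisiurewicz

open Pool.Agent.H713R2

/-- The quadratic polynomial `z ^ 2 + c`. -/
def f (c : ℂ) : ℂ → ℂ := fun z => z ^ 2 + c

/-- Misiurewicz parameters: the critical point `0` is preperiodic and not periodic. -/
def Misiurewicz (c : ℂ) : Prop :=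
  (∃ m n : ℕ, 1 ≤ n ∧ (f c)^[m + n] 0 = (f c)^[m] 0) ∧ ∀ p : ℕ, 1 ≤ p → (f c)^[p] 0 ≠ 0

/-- The exterior conformal map `ψ` of the Mandelbrot set near a Misiurewicz parameter `c₀`: the
points `ψ w` of small height are within `C ‖ψ w - c₀‖ ^ 2` of the Mandelbrot set, with the
corresponding bound of the derivative; hence on a parameter ray, in the time
`t = log (1 / (‖w‖ - 1))`, the inverse of the distance to `c₀` is Lipschitz. -/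
theorem result (c₀ : ℂ) (h₀ : Misiurewicz c₀) :
    (∃ ψ : ℂ → ℂ, IsExteriorMap mandelbrotSet ψ) ∧
    ∃ C : ℝ, 1 ≤ C ∧ ∀ ψ : ℂ → ℂ, IsExteriorMap mandelbrotSet ψ →
      (∀ w : ℂ, 1 < ‖w‖ →
        ‖w‖ - 1 ≤ Real.exp (-(C * (1 + |Real.log ‖ψ w - c₀‖|) ^ 2)) →
        (‖w‖ - 1) * ‖deriv ψ w‖ ≤ C * ‖ψ w - c₀‖ ^ 2 ∧
        Metric.infDist (ψ w) mandelbrotSet ≤ C * ‖ψ w - c₀‖ ^ 2) ∧
      (∀ ζ : ℂ, ‖ζ‖ = 1 → ∀ t₁ t₂ : ℝ, C ≤ t₁ → t₁ ≤ t₂ →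
        Real.exp (-(√t₁ / C)) ≤ ‖ψ ((1 + Real.exp (-t₁) : ℝ) * ζ) - c₀‖ →
        |1 / ‖ψ ((1 + Real.exp (-t₂) : ℝ) * ζ) - c₀‖ -
          1 / ‖ψ ((1 + Real.exp (-t₁) : ℝ) * ζ) - c₀‖| ≤ C * (t₂ - t₁)) := by
  obtain ⟨β, hβ⟩ := exists_beta (d := 2) le_rfl
  refine ⟨⟨_, exteriorMap_of_beta hβ⟩, ?_⟩
  obtain ⟨C, hC, H⟩ := Pool.Agent.H107.MLC.all_near (d := 2) le_rfl h₀.1 h₀.2
  refine ⟨C, hC, fun ψ hψ => ?_⟩
  obtain ⟨h1, h2⟩ := H ψ hψ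
  have e1 : ((2 : ℕ) : ℝ) / (((2 : ℕ) : ℝ) - 1) = ((2 : ℕ) : ℝ) := by norm_num
  have e2 : -(1 / (((2 : ℕ) : ℝ) - 1)) = (-1 : ℝ) := by norm_num
  refine ⟨fun w hw hsm => ?_, fun ζ hζ t₁ t₂ ht₁ ht₁₂ hlow => ?_⟩
  · have h3 := h1 w hw hsm
    rw [e1, Real.rpow_natCast] at h3
    exact h3
  · have h3 := h2 ζ hζ t₁ t₂ ht₁ ht₁₂ hlow
    rw [e2, Real.rpow_neg_one, Real.rpow_neg_one] at h3
    simpa only [one_div] using h3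

end Pool.Agent.Results.MP_c6f924_an.SlowRaysMisiurewicz
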