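import Mathlib
import Pool.Prelude.Def_F_c31e40fa
import Pool.Agent.V1186.CN.Ray

/-!
# Almost every parameter ray of the Mandelbrot set: landing rate, recurrence and similarity

Let `ψ` be the exterior map of the Mandelbrot set `M`. For almost every `θ` the ray of angle `θ` lands
at a boundary point `c₀` of `M`, and, with `f(z) = z ^ 2 + c₀`:

* the critical orbit is recurrent at most at a polynomial rate;
* `|log |(f ^ n)'(c₀)| - n log 2| ≤ 32 √(n log 2 log log n)` for large `n`;
* the ratio of the derivative in the parameter and the derivative in the dynamical plane has a limit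
  which is not zero;
* `log |(f ^ n)'(c₀)|` is determined by the exterior map, and by the distance to `M` of the point of the
  ray at the level `4 / 2 ^ n` of the potential, up to `O(log ^ 2 n)`;
* the distance on the ray from the landing point, at the potential between `4 / 2 ^ (n + 1)` and
  `4 / 2 ^ n`, is `2 ^ (-n)` up to the factor `exp (31 √(n log 2 log log n))`.
-/

set_option autoImplicit false

open Set Filter Metric MeasureTheory Topology

namespace Pool.Agent.Results.MP_c6f924_an.TypicalRays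

open Pool.Agent.H713R2 (IsExteriorMap)

/-- The quadratic polynomial `z ^ 2 + c`. -/
def f (c : ℂ) : ℂ → ℂ := fun z => z ^ 2 + c

/-- The Mandelbrot set. -/
def M : Set ℂ := N62a1eb23.mandelbrotSet

/-- The modulus of the derivative of the `n`-th iterate at the critical value. -/
noncomputable def der (c : ℂ) (n : ℕ) : ℝ := ‖deriv ((f c)^[n]) c‖

/-- The point at the angle `θ` and the level `n`: its potential (the logarithm of the modulus) is
`4 / 2 ^ n`. -/
noncomputable def W (θ : ℝ) (n : ℕ) : ℂ :=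
  (Real.exp (4 / (2 : ℝ) ^ n) : ℝ) * Complex.exp (θ * Complex.I)

/-- `√(n log 2 log log n)` -/
noncomputable def lil (n : ℕ) : ℝ := √(n * Real.log 2 * Real.log (Real.log n))

/-- The properties of the ray of angle `θ`, which lands at `c₀`. -/
structure Typical (ψ : ℂ → ℂ) (θ : ℝ) (c₀ : ℂ) (A : ℝ) (R : ℂ) : Prop where
  /-- landing -/
  land : Tendsto (fun r : ℝ => ψ (r * Complex.exp (θ * Complex.I))) (𝓝[>] 1) (𝓝 c₀)
  /-- polynomial recurrence of the critical orbit -/
  recurrence : ∀ n : ℕ, ((n : ℝ) + 2) ^ (-A) ≤ ‖(f c₀)^[n] c₀‖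
  /-- growth of the derivatives -/
  growth : ∀ᶠ n : ℕ in atTop, |Real.log (der c₀ n) - n * Real.log 2| ≤ 32 * lil n
  /-- transversality -/
  trans : R ≠ 0 ∧ Tendsto (fun n : ℕ => deriv (fun c => (f c)^[n] c) c₀ / deriv ((f c₀)^[n]) c₀)
    atTop (𝓝 R)
  /-- similarity: the derivative of the exterior map -/
  simDeriv : ∀ n : ℕ, |Real.log (der c₀ n) - n * Real.log 2 + Real.log ‖deriv ψ (W θ n)‖| ≤
    A * Real.log (n + 2) ^ 2
  /-- similarity: the distance to the Mandelbrot set -/
  simDist : ∀ n : ℕ, |Real.log (der c₀ n) + Real.log (infDist (ψ (W θ n)) M)| ≤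
    A * Real.log (n + 2) ^ 2
  /-- the rate of landing -/
  rate : ∀ᶠ n : ℕ in atTop, ∀ r : ℝ, 4 / (2 : ℝ) ^ (n + 1) ≤ Real.log r →
    Real.log r ≤ 4 / (2 : ℝ) ^ n → 1 < r →
      |Real.log ‖ψ (r * Complex.exp (θ * Complex.I)) - c₀‖ + n * Real.log 2| ≤ 31 * lil n

/-- Almost every parameter ray of the Mandelbrot set. -/
theorem result :
    (∃ ψ : ℂ → ℂ, IsExteriorMap M ψ) ∧
    ∀ ψ : ℂ → ℂ, IsExteriorMap M ψ → ∀ᵐ θ : ℝ, ∃ c₀ ∈ frontier M, ∃ (A : ℝ) (R : ℂ),
      Typical ψ θ c₀ A R := by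
  have hd : 2 ≤ 2 := le_rfl
  obtain ⟨β, hβ⟩ := Pool.Agent.H713R2.exists_beta (d := 2) hd
  refine ⟨⟨_, Pool.Agent.H713R2.exteriorMap_of_beta hβ⟩, ?_⟩
  intro ψ hψ
  filter_upwards [Pool.Agent.Y272.TY.ae_neg' (Pool.Agent.Y272.TY.typical_all hd hβ)] with θ hθ
  obtain ⟨c₀, A, R, h⟩ := hθ
  obtain ⟨B, hB, HB⟩ := Pool.Agent.V1186.CN.at_level hd hβ hψ h
  obtain ⟨C, hC, HC⟩ := Pool.Agent.V1186.CN.dist_level hd hβ hψ h
  have hA := h.A0
  refine ⟨c₀, h.frontier hd hβ, A + B + C, R, h.tendsto_psi hβ hψ, ?_, ?_, ⟨h.R0, ?_⟩, ?_, ?_, ?_⟩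
  · intro n
    have h1 := h.rec' n
    rw [← Pool.Agent.V1186.CN.zz_eq_P hd] at h1
    refine le_trans ?_ h1
    have hn : (0 : ℝ) < (n : ℝ) + 2 := by positivity
    have hL := Pool.Agent.Y272.TY.log_two_le n
    rw [Real.rpow_def_of_pos hn, Real.exp_le_exp]
    nlinarith [mul_nonneg (by linarith : 0 ≤ B + C) (by linarith : 0 ≤ Real.log ((n : ℝ) + 2))]
  · filter_upwards [h.lilM hd] with n hn
    rw [← Pool.Agent.V1186.CN.Pd_eq_MM hd] at hn
    push_cast at hn
    exact hn
  · refine h.lim.congr fun n => ?_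
    rw [← Pool.Agent.Y272.TY.fun_iter_eq hd n, ← (Pool.Agent.Y272.TY.deriv_iter hd c₀ n).deriv]
    rfl
  · intro n
    have h1 := HB n
    have h2 : 0 ≤ (A + C) * Real.log ((n : ℝ) + 2) ^ 2 := by positivity
    unfold Pool.Agent.V1186.CN.lev at h1
    push_cast at h1
    refine (le_of_eq ?_).trans (h1.trans (by linarith))
    unfold W
    push_cast
    rfl
  · intro n
    have h1 := HC n
    have h2 : 0 ≤ (A + B) * Real.log ((n : ℝ) + 2) ^ 2 := by positivity
    unfold Pool.Agent.V1186.CN.lev at h1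
    push_cast at h1
    refine (le_of_eq ?_).trans (h1.trans (by linarith))
    unfold W
    push_cast
    rfl
  · filter_upwards [Pool.Agent.V1186.CN.land_level hd hβ hψ h] with n hn r hr1 hr2 hr
    have h1 := hn r (by push_cast; exact hr1) (by push_cast; exact hr2) hr
    unfold Pool.Agent.V1186.CN.LL at h1
    push_cast at h1
    exact h1

end Pool.Agent.Results.MP_c6f924_an.TypicalRays
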